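import Pool.Agent.Lib.MP_efea25_an.Assembly

set_option autoImplicit false

namespace Pool.Agent.Results.MP_efea25_an.LittlewoodSqrtZeros

open Polynomial Finset Pool.Agent.Lib.MP_efea25_an

/-- `p` is a Littlewood polynomial of degree `n`: its coefficients of index `0, ..., n` are all
`1` or `-1`, and its degree is `n`. -/
def IsLittlewood (n : ℕ) (p : ℝ[X]) : Prop :=
  p.natDegree = n ∧ ∀ j ≤ n, p.coeff j = 1 ∨ p.coeff j = -1

/-- The polynomial with given initial coefficients. -/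
noncomputable def poly (a : ℕ → ℝ) (n : ℕ) : ℝ[X] := ∑ j ∈ range (n + 1), C (a j) * X ^ j

lemma coeff_poly (a : ℕ → ℝ) (n j : ℕ) : (poly a n).coeff j = if j ≤ n then a j else 0 := by
  rw [poly, finsetSum_coeff]
  simp only [coeff_C_mul, coeff_X_pow]
  simp only [mul_ite, mul_one, mul_zero]
  rw [sum_ite_eq]
  simp

lemma eval_poly (a : ℕ → ℝ) (n : ℕ) (x : ℝ) :
    (poly a n).eval x = ∑ j ∈ range (n + 1), a j * x ^ j := by
  simp [poly, eval_finsetSum]

lemma isLittlewood_poly (a : ℕ → ℝ) (ha : ∀ k, a k = 1 ∨ a k = -1) (n : ℕ) :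
    IsLittlewood n (poly a n) := by
  constructor
  · apply natDegree_eq_of_le_of_coeff_ne_zero
    · rw [natDegree_le_iff_coeff_eq_zero]
      intro N hN
      rw [coeff_poly, if_neg (by omega)]
    · rw [coeff_poly, if_pos le_rfl]
      rcases ha n with h | h <;> rw [h] <;> norm_num
  · intro j hj
    rw [coeff_poly, if_pos hj]
    exact ha j

lemma exists_root {p : ℝ[X]} {a b : ℝ} (hab : a < b) (h : p.eval a * p.eval b < 0) :
    ∃ z, a < z ∧ z < b ∧ p.IsRoot z := by
  have hc : ContinuousOn (fun x => p.eval x) (Set.Icc a b) := p.continuous.continuousOn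
  rcases mul_neg_iff.1 h with ⟨h1, h2⟩ | ⟨h1, h2⟩
  · obtain ⟨z, hz, hz0⟩ := intermediate_value_Ioo' hab.le hc ⟨h2, h1⟩
    exact ⟨z, hz.1, hz.2, hz0⟩
  · obtain ⟨z, hz, hz0⟩ := intermediate_value_Ioo hab.le hc ⟨h1, h2⟩
    exact ⟨z, hz.1, hz.2, hz0⟩

lemma big_case {m n : ℕ} (hm : 1 ≤ m) (hn : 67200 * m ^ 2 ≤ n) :
    ∃ p : ℝ[X], IsLittlewood n p ∧ ∃ Z : Finset ℝ, Z.card = m ∧
      ∀ z ∈ Z, 0 < z ∧ z < 1 ∧ p.IsRoot z := by
  refine ⟨poly (bits m) n, isLittlewood_poly _ (bits_eq m) n, ?_⟩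
  have hpos : ∀ j ≤ m, 0 < (-1) ^ j * (poly (bits m) n).eval (tt m (2 * j)) := by
    intro j hj
    have hj' : 2 * j ≤ 2 * m := by omega
    have h1 := tail_bound (bits m) (bits_eq m) (tt_pos hm hj') (tt_lt_one hm hj') n
    have h2 := tail_small hm hj hn
    have h3 := prod_qq m j hm hj
    rw [ev_bits m j hm hj] at h1
    rw [eval_poly]
    set S := ∑ i ∈ range (n + 1), bits m i * tt m (2 * j) ^ i
    set Q := ∏ k ∈ range m, qq m j k
    have h4 : |1 / 2 * Q - S| < 1 / 2 * (1 / 48) ^ m := lt_of_le_of_lt h1 h2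
    have h5 : |(-1) ^ j * (1 / 2 * Q - S)| < 1 / 2 * (1 / 48) ^ m := by
      rw [abs_mul, abs_pow, abs_neg, abs_one, one_pow, one_mul]; exact h4
    have h6 := (abs_lt.1 h5).2
    have h7 : (-1) ^ j * (1 / 2 * Q - S) = 1 / 2 * ((-1) ^ j * Q) - (-1) ^ j * S := by ring
    rw [h7] at h6
    linarith
  have hroot : ∀ j : ℕ, ∃ z : ℝ, j < m → (tt m (2 * j) < z ∧ z < tt m (2 * (j + 1)) ∧
      (poly (bits m) n).IsRoot z) := by
    intro j
    by_cases hj : j < m
    · obtain ⟨z, h1, h2, h3⟩ := exists_root (p := poly (bits m) n)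
        (tt_lt hm (by omega : 2 * j < 2 * (j + 1))) (by
          have h4 := hpos j (by omega)
          have h5 := hpos (j + 1) (by omega)
          have h6 := mul_pos h4 h5
          have h7 : (-1 : ℝ) ^ j * (-1) ^ (j + 1) = -1 := by
            rw [← pow_add]
            exact Odd.neg_one_pow ⟨j, by ring⟩
          have h8 : (-1) ^ j * (poly (bits m) n).eval (tt m (2 * j))
              * ((-1) ^ (j + 1) * (poly (bits m) n).eval (tt m (2 * (j + 1))))
              = ((-1 : ℝ) ^ j * (-1) ^ (j + 1)) * ((poly (bits m) n).eval (tt m (2 * j))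
                * (poly (bits m) n).eval (tt m (2 * (j + 1)))) := by ring
          rw [h8, h7] at h6
          linarith)
      exact ⟨z, fun _ => ⟨h1, h2, h3⟩⟩
    · exact ⟨0, fun h => absurd h hj⟩
  choose z hz using hroot
  have hmono : ∀ i j : ℕ, i < j → j < m → z i < z j := by
    intro i j hij hjm
    have h1 := (hz i (by omega)).2.1
    have h2 := (hz j hjm).1
    have h3 : tt m (2 * (i + 1)) ≤ tt m (2 * j) := by
      rcases Nat.lt_or_ge (i + 1) j with h | h
      · exact (tt_lt hm (by omega)).le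
      · have : i + 1 = j := by omega
        rw [this]
    linarith
  refine ⟨(range m).image z, ?_, ?_⟩
  · rw [card_image_of_injOn, card_range]
    intro i hi j hj hij
    simp only [coe_range, Set.mem_Iio] at hi hj
    rcases lt_trichotomy i j with h | h | h
    · exact absurd hij (hmono i j h hj).ne
    · exact h
    · exact absurd hij (hmono j i h hi).ne'
  · intro y hy
    rw [mem_image] at hy
    obtain ⟨j, hj, rfl⟩ := hy
    rw [mem_range] at hj
    obtain ⟨h1, h2, h3⟩ := hz j hj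
    refine ⟨lt_trans (tt_pos hm (by omega)) h1, lt_of_lt_of_le h2 (tt_lt_one hm (by omega)).le, h3⟩

lemma small_case {n : ℕ} (hn : 2 ≤ n) :
    ∃ p : ℝ[X], IsLittlewood n p ∧ ∃ Z : Finset ℝ, Z.card = 1 ∧
      ∀ z ∈ Z, 0 < z ∧ z < 1 ∧ p.IsRoot z := by
  set a : ℕ → ℝ := fun k => if k = 0 then 1 else -1 with ha
  refine ⟨poly a n, isLittlewood_poly a (fun k => by by_cases h : k = 0 <;> simp [ha, h]) n, ?_⟩
  have h0 : (poly a n).eval 0 = 1 := by
    rw [eval_poly, sum_range_succ']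
    simp [ha]
  have h1 : (poly a n).eval 1 = 1 - n := by
    rw [eval_poly, sum_range_succ']
    simp [ha]
    ring
  obtain ⟨z, hz0, hz1, hz⟩ := exists_root (p := poly a n) (zero_lt_one) (by
    rw [h0, h1]
    have : (2 : ℝ) ≤ n := by exact_mod_cast hn
    linarith)
  refine ⟨{z}, by simp, fun y hy => ?_⟩
  rw [mem_singleton] at hy
  subst hy
  exact ⟨hz0, hz1, hz⟩

/-- There is an absolute constant `c > 0` such that for every `n ≥ 2` some Littlewood polynomial of
degree `n` has at least `c √n` distinct zeros in the open interval `(0,1)`. In particular no bound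
of the form `C log n` holds for the number of zeros in `[-1,1]`. -/
theorem result : ∃ c : ℝ, 0 < c ∧ ∀ n : ℕ, 2 ≤ n → ∃ p : ℝ[X], IsLittlewood n p ∧
    ∃ Z : Finset ℝ, c * Real.sqrt n ≤ Z.card ∧ ∀ z ∈ Z, 0 < z ∧ z < 1 ∧ p.IsRoot z := by
  refine ⟨1 / 1000, by norm_num, fun n hn => ?_⟩
  by_cases hbig : 67200 ≤ n
  · set m := Nat.sqrt (n / 67200) with hm
    have hm1 : 1 ≤ m := by
      rw [hm, Nat.le_sqrt]
      omega
    have hle : 67200 * m ^ 2 ≤ n := by
      have h1 : m * m ≤ n / 67200 := Nat.sqrt_le _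
      have h2 := Nat.div_mul_le_self n 67200
      nlinarith
    have hlt : n < 67200 * (m + 1) ^ 2 := by
      have h1 : n / 67200 < (m + 1) * (m + 1) := Nat.lt_succ_sqrt _
      have h2 := Nat.lt_div_mul_add (a := n) (b := 67200) (by norm_num)
      nlinarith
    obtain ⟨p, hp, Z, hZ, hroot⟩ := big_case hm1 hle
    refine ⟨p, hp, Z, ?_, hroot⟩
    rw [hZ]
    have h3 : Real.sqrt n ≤ 1000 * m := by
      rw [Real.sqrt_le_left (by positivity)]
      have h4 : (n : ℝ) < 67200 * (m + 1) ^ 2 := by exact_mod_cast hlt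
      have h5 : (1 : ℝ) ≤ m := by exact_mod_cast hm1
      nlinarith
    linarith
  · push Not at hbig
    obtain ⟨p, hp, Z, hZ, hroot⟩ := small_case hn
    refine ⟨p, hp, Z, ?_, hroot⟩
    rw [hZ]
    have h3 : Real.sqrt n ≤ 1000 := by
      rw [Real.sqrt_le_left (by norm_num)]
      have : (n : ℝ) < 67200 := by exact_mod_cast hbig
      linarith
    push_cast
    linarith

/-- The number of zeros of `p` in `[-1,1]`, counted with multiplicity. -/
noncomputable def numZeros (p : ℝ[X]) : ℕ :=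
  Multiset.card (p.roots.filter (fun x => -1 ≤ x ∧ x ≤ 1))

/-- Corollary for the reader: the negated form of Q2, literally. -/
theorem q2_negated : ∀ c : ℝ, 0 < c → ∃ n : ℕ, 2 ≤ n ∧ ∃ p : ℝ[X], IsLittlewood n p ∧
    c * Real.log n < numZeros p := by
  intro C hC
  obtain ⟨c, hc, h⟩ := result
  have hlim : Filter.Tendsto (fun x : ℝ => Real.log x / x ^ (1 / 2 : ℝ)) Filter.atTop (nhds 0) :=
    (isLittleO_log_rpow_atTop (by norm_num)).tendsto_div_nhds_zero
  have hlim' := hlim.comp tendsto_natCast_atTop_atTop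
  have hev := (hlim'.eventually_lt_const (by positivity : (0 : ℝ) < c / C)).and
    (Filter.eventually_ge_atTop 2)
  obtain ⟨n, hn, hn2⟩ := hev.exists
  refine ⟨n, hn2, ?_⟩
  obtain ⟨p, hp, Z, hZ, hroot⟩ := h n hn2
  refine ⟨p, hp, ?_⟩
  have hn0 : (0 : ℝ) < Real.sqrt n := Real.sqrt_pos.2 (by positivity)
  simp only [Function.comp_apply] at hn
  rw [← Real.sqrt_eq_rpow, div_lt_div_iff₀ hn0 hC] at hn
  have hp0 : p ≠ 0 := by
    intro h0
    have := hp.2 0 (Nat.zero_le n)
    rw [h0] at this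
    simp at this
  have hsub : Z ⊆ (p.roots.filter (fun x => -1 ≤ x ∧ x ≤ 1)).toFinset := by
    intro z hz
    obtain ⟨h1, h2, h3⟩ := hroot z hz
    rw [Multiset.mem_toFinset, Multiset.mem_filter]
    exact ⟨(mem_roots hp0).2 h3, by linarith, h2.le⟩
  have hcard : Z.card ≤ numZeros p :=
    (card_le_card hsub).trans (Multiset.toFinset_card_le _)
  have hcard' : (Z.card : ℝ) ≤ numZeros p := by exact_mod_cast hcard
  linarith

end Pool.Agent.Results.MP_efea25_an.LittlewoodSqrtZeros
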