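import Pool.Agent.Lib.MP_efea25_an.LW.Order

set_option autoImplicit false

namespace Pool.Agent.Results.MP_efea25_an.MultiplicityAtOne

open Polynomial Pool.Agent.Lib.MP_efea25_an.LW

/-- The negated form of Q1, literally: for every `c > 0` there are `n ≥ 2` and a Littlewood
polynomial of degree `n` whose zero at `1` has multiplicity greater than `c log n`. Moreover the
order of growth is that of the upper bound of Boyd: for every `d ≥ 3` there is a Littlewood
polynomial of degree at most `d` whose zero at `1` has multiplicity at least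
`c (log d) ^ 2 / log log d`. -/
theorem result :
    (∀ c : ℝ, 0 < c → ∃ n : ℕ, 2 ≤ n ∧ ∃ p : ℝ[X],
      p.natDegree = n ∧ (∀ j ≤ n, p.coeff j = 1 ∨ p.coeff j = -1) ∧
        c * Real.log n < p.rootMultiplicity 1) ∧
    (∃ c : ℝ, 0 < c ∧ ∀ d : ℕ, 3 ≤ d → ∃ n : ℕ, 1 ≤ n ∧ n ≤ d ∧ ∃ p : ℝ[X],
      p.natDegree = n ∧ (∀ j ≤ n, p.coeff j = 1 ∨ p.coeff j = -1) ∧
        c * (Real.log d ^ 2 / Real.log (Real.log d)) ≤ p.rootMultiplicity 1) :=
  ⟨fun c _ => sharp_negated c, sharp_order⟩

end Pool.Agent.Results.MP_efea25_an.MultiplicityAtOne
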